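import Pool.Agent.Run7.h251.Main3

/-!
# Q-matrices of countable Markov chains with stable and instantaneous states

For a matrix `Q` with stable and instantaneous states let
* `x_j` (`stay`) be the least nonnegative solution of
  `(1 + q_j) x_j = 1 + ∑_{k stable} q_jk x_k` (row sums of the minimal resolvent of the stable part),
* `π_jb` (`hitp`) the least nonnegative solution of
  `(1 + q_j) π_jb = q_jb + ∑_{k stable} q_jk π_kb`,
* `e_j = 1 - x_j - ∑_b π_jb` (`esc`) the escape probabilities,
* `q̂_ab = q_ab + ∑_{j stable} q_aj π_jb` (`redRate`) the reduced rates.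

Assume (E): for instantaneous `a`, `∑_j q_aj e_j` is finite as soon as `∑_j q_aj x_j` is; and
assume that either (S) holds, or there is an instantaneous state and (H) holds.
Then `Q` is a Q-matrix if and only if the row condition, (A), (N) and (S) hold.
-/

open Filter Topology Set
open scoped ENNReal NNReal

namespace Pool.Agent.Results.MP_b687c6_pr.MixedReduced

open Run7.h251

open Classical in
/-- (E): the escape flux from an instantaneous state is finite whenever the staying flux is -/
def EscapeTame (Q : ℕ → ℕ → EReal) : Prop :=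
  ∀ a, Inst Q a → ∑' j, (if Stable Q j then rate Q a j * stay Q j else 0) ≠ ⊤ →
    ∑' j, (if Stable Q j then rate Q a j * esc Q j else 0) ≠ ⊤

theorem result (Q : ℕ → ℕ → EReal) (hQ : Admissible Q) (hE : EscapeTame Q)
    (hSH : CondS Q ∨ ((∃ b, Inst Q b) ∧ CondH Q)) :
    IsQMatrix Q ↔ RowCond Q ∧ CondA Q ∧ CondN Q ∧ CondS Q := by
  constructor
  · intro h
    obtain ⟨hR, hA, hN⟩ := necessity hQ h
    refine ⟨hR, hA, hN, ?_⟩
    rcases hSH with hS | ⟨hG, hH⟩
    · exact hS
    · exact necessityS hQ h hH hG
  · rintro ⟨hR, hA, hN, hS⟩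
    exact sufficiency hQ hR hA hN hS (fun a ha => hE a ha (hA a ha))

end Pool.Agent.Results.MP_b687c6_pr.MixedReduced
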