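import Pool.Agent.Run7.h251.Main3

/-!
# Necessary conditions for Q-matrices with stable and instantaneous states

Every Q-matrix satisfies (A) and (N) (formulated with the minimal resolvent of the stable part and
with the reduced rates between the instantaneous states). No hypothesis on the matrix is made.
-/

open Filter Topology Set
open scoped ENNReal NNReal

namespace Pool.Agent.Results.MP_b687c6_pr.NecessaryAN

open Run7.h251

theorem result (Q : ℕ → ℕ → EReal) (hQ : Admissible Q) (h : IsQMatrix Q) : CondA Q ∧ CondN Q :=
  (necessity hQ h).2

end Pool.Agent.Results.MP_b687c6_pr.NecessaryAN
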