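import Pool.Agent.Run7.h251.Main3

/-!
# Q-matrices whose stable states are uniformly slow

If the row sums of the minimal resolvent of the stable part are bounded below (for instance if the
stable rates `q_j` are bounded), and there is an instantaneous state, then `Q` is a Q-matrix if and
only if the row condition holds, every instantaneous state has finite total rate to the stable
states, and the conditions (N) and (S) of Williams hold on the instantaneous states.
-/

open Filter Topology Set
open scoped ENNReal NNReal

namespace Pool.Agent.Results.MP_b687c6_pr.SlowStable

open Run7.h251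

theorem result (Q : ℕ → ℕ → EReal) (hQ : Admissible Q) (hG : ∃ b, Inst Q b)
    (hs : ∃ c : ℝ≥0∞, c ≠ 0 ∧ ∀ j, Stable Q j → c ≤ stay Q j) :
    IsQMatrix Q ↔ RowCond Q ∧ CondF Q ∧ WilliamsN Q ∧ WilliamsS Q :=
  slow_case hQ hG hs

end Pool.Agent.Results.MP_b687c6_pr.SlowStable
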